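import Mathlib
import Pool.Agent.H.MP_ec84ce_an.A

set_option autoImplicit false

namespace Pool.Agent.Results.MP_ec84ce_an.Yes

open Set Filter Topology Pool.Agent.H.MP_ec84ce_an

theorem sg {E : Type*} [AddCommGroup E] [Module ℝ E] {s : Set E} (h : Convex ℝ s) (a : Absorbent ℝ s) :
    Sub (gauge s) := ⟨gauge_nonneg, fun _ h x => gauge_smul_of_nonneg h x, gauge_add_le h a⟩

theorem result (X : Type) [AddCommGroup X] [Module ℝ X] [MetricSpace X] [IsTopologicalAddGroup X]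
    [ContinuousSMul ℝ X] [CompleteSpace X] (C D : Set X) (hC : Convex ℝ C) (cC : IsClosed C) (hD : Convex ℝ D)
    (_cD : IsClosed D) (h : C ⊆ D) :
    (¬∃ A ⊆ D \ C, A.Infinite ∧ A.Pairwise fun a b => (segment ℝ a b ∩ C).Nonempty) ↔
      ∃ (n : ℕ) (H : Fin (n + 1) → Set X), C = ⋂ i, H i ∧ ∀ i, H i ⊆ D ∩ affineSpan ℝ C ∧ Convex ℝ (H i) ∧
        Convex ℝ ((D ∩ affineSpan ℝ C) \ H i) := by
  classical
  have hD' := hD.inter (affineSpan ℝ C).convex
  refine ⟨fun k => ?_, fun ⟨n, H, e, k⟩ ⟨A, a1, a2, a3⟩ => ?_⟩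
  · suffices ∃ n, ∀ F : Finset X, ∃ K : Fin (n + 1) → Set X, (∀ i, Convex ℝ (K i) ∧ Disjoint C (K i)) ∧
        ∀ a ∈ F, a ∈ (D ∩ affineSpan ℝ C) \ C → ∃ i, a ∈ K i by
      obtain ⟨n, w⟩ := this
      choose K k1 k2 using w
      obtain ⟨χ, hχ⟩ := Finset.rado_selection fun F a => if h : ∃ i, a ∈ K F i then h.choose else 0
      choose S s1 s2 s3 s4 using fun i => exists_convex_convex_compl_subset hC
        (convex_convexHull ℝ {a ∈ (D ∩ affineSpan ℝ C) \ C | χ a = i}) (disjoint_left.2 fun x x1 x2 => by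
          rw [convexHull_eq_union_convexHull_finite_subsets] at x2
          obtain ⟨F, f1, f2⟩ := mem_iUnion₂.1 x2
          obtain ⟨G, g1, g2⟩ := hχ F
          refine disjoint_left.1 (k1 G i).2 x1 (convexHull_min (fun a ha => ?_) (k1 G i).1 f2)
          have := k2 G a (g1 ha) (f1 ha).1
          rw [← (f1 ha).2, g2 a ha, dif_pos this]
          exact this.choose_spec)
      refine ⟨n, fun i => D ∩ affineSpan ℝ C ∩ S i, (subset_iInter fun i =>
        subset_inter (subset_inter h (subset_affineSpan _ _)) (s3 i)).antisymm fun x hx => by_contra fun c =>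
          s4 (χ x) (subset_convexHull _ _ ⟨⟨(mem_iInter.1 hx 0).1, c⟩, rfl⟩) (mem_iInter.1 hx _).2,
            fun i => ⟨inter_subset_left, hD'.inter (s1 i), ?_⟩⟩
      rw [sdiff_self_inter]
      exact hD'.inter (s2 i)
    by_contra! w
    choose F w using w
    obtain ⟨a0, -, ⟨⟨-, a0⟩, -⟩, -⟩ := w 0 (fun _ => ∅) fun _ => ⟨convex_empty, disjoint_empty _⟩
    obtain ⟨c0, c1⟩ := (affineSpan_nonempty ℝ).1 ⟨_, a0⟩
    choose T t1 t2 t3 using fun (a : X) (ha : a ∈ affineSpan ℝ C) => affineSpan_induction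
      (p := fun a => ∃ T ⊆ C, T.Countable ∧ ∀ (c : X) (W : Submodule ℝ X), (∀ y ∈ T, y - c ∈ W) → a - c ∈ W) ha
      (fun x hx => ⟨{x}, by simpa, by simp, by simp⟩) fun r u v x ⟨U, u1, u2, u3⟩ ⟨V, v1, v2, v3⟩ ⟨Y, y1, y2, y3⟩ =>
        ⟨U ∪ V ∪ Y, by simp [*], by simp [*], fun c W k => by
          convert W.add_mem (W.smul_mem r (W.sub_mem (u3 c W fun y h => k y (by simp [h]))
            (v3 c W fun y h => k y (by simp [h])))) (y3 c W fun y h => k y (by simp [h])) using 1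
          simp [add_sub_assoc]⟩
    obtain ⟨y, hy⟩ := ((countable_iUnion fun n => (F n).countable_toSet.biUnion fun a _ =>
      (countable_iUnion (t2 a))).insert c0).exists_eq_range (insert_nonempty _ _)
    obtain ⟨c, W, w1, w2⟩ := inner hC cC (y := y) fun k =>
      insert_subset c1 (iUnion_subset fun _ => iUnion₂_subset fun a _ => iUnion_subset (t1 a)) (hy ▸ mem_range_self k)
    have cv : ∀ {D : Set X}, Convex ℝ D → Convex ℝ {v : W | c + v ∈ D} := fun h =>
      (h.translate_preimage_right c).linear_preimage W.subtype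
    have ab : ∀ {D : Set X}, C ⊆ D → Absorbent ℝ {v : W | c + v ∈ D} := fun h =>
      absorbent_iff_eventually_nhdsNE_zero.2 fun v => nhdsWithin_le_nhds ((w2 v v.2).mono fun t k => h k)
    have l : ∀ {D : Set X}, Convex ℝ D → C ⊆ D → ∀ v, gauge {v : W | c + v ∈ D} v < 1 → c + v ∈ D := fun a b v k =>
      setOfPred_gauge_lt_one_subset_self (cv a) (ab b).zero_mem (ab b) k
    have p := sg (cv hC) (ab Subset.rfl)
    obtain ⟨a, a1, a2⟩ := core p (sg (cv hD) (ab h)) fun Φ => by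
      let g := fun i => (Φ.equivFin.symm i).1
      obtain ⟨a, b1, ⟨⟨b2, b3⟩, b4⟩, b5⟩ := w Φ.card (Fin.cons ∅ fun i => (fun v : W => c + v) ''
        {v | (∀ x, g i x ≤ gauge {v : W | c + v ∈ C} x) ∧ 1 < g i v}) (Fin.cases ⟨convex_empty, disjoint_empty _⟩
          fun i => ⟨by
            rw [Fin.cons_succ, show (fun v : W => c + v.1) = (c + ·) ∘ W.subtype from rfl, image_comp]
            refine (Convex.linear_image ?_ _).translate c
            exact fun u hu v hv a b a0 b0 e => ⟨hu.1, convex_halfSpace_gt (g i).isLinear 1 hu.2 hv.2 a0 b0 e⟩,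
          disjoint_left.2 fun x x1 ⟨v, v1, v2⟩ =>
            v1.2.not_ge ((v1.1 v).trans (gauge_le_one_of_mem (by simpa [v2])))⟩)
      let v : W := ⟨a - c, t3 a b3 c W fun x hx => by
        obtain ⟨k, rfl⟩ := hy.subset (Or.inr (mem_iUnion.2 ⟨_, mem_iUnion₂.2 ⟨a, b1, mem_iUnion.2 ⟨b3, hx⟩⟩⟩))
        exact w1 k⟩
      have v1 : 1 < gauge {v : W | c + v ∈ C} v := not_le.1 fun k => b4 (cC.mem_of_tendsto
        (f := fun t : ℝ => c + t • (a - c)) (b := 𝓝[<] 1)
        (tendsto_nhdsWithin_of_tendsto_nhds (Continuous.tendsto' (by fun_prop) _ _ (by simp))) (by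
          filter_upwards [Ioo_mem_nhdsLT one_pos] with t ht
          exact l hC Subset.rfl (t • v) (by rw [p.hom _ ht.1.le]; nlinarith [ht.1, ht.2])))
      refine ⟨v, (gauge_le_one_of_mem (by simpa [v])).trans_lt v1, fun f hf k => not_le.1 fun e =>
        b5 (Φ.equivFin ⟨f, hf⟩).succ ⟨v, ?_, by simp [v]⟩⟩
      have : g (Φ.equivFin ⟨f, hf⟩) = f := congrArg Subtype.val (Φ.equivFin.symm_apply_apply _)
      have k := And.intro k (v1.trans_le e)
      rwa [← this] at k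
    have r : ∀ i j, i < j → (segment ℝ (c + a i) (c + a j) ∩ C).Nonempty := fun i j ij => by
      obtain ⟨_, ⟨α, β, α0, β0, e, rfl⟩, z⟩ := a2 i j ij
      refine ⟨_, ⟨α, β, α0, β0, e, ?_⟩, l hC Subset.rfl _ z⟩
      rw [smul_add, smul_add, add_add_add_comm, Convex.combo_self e]
      rfl
    have n : ∀ i, c + a i ∉ C := fun i k => (a1 i).2.not_ge (gauge_le_one_of_mem k)
    refine k ⟨range fun i => c + a i, range_subset_iff.2 fun i => ⟨l hD h _ (a1 i).1, n i⟩,
      infinite_range_of_injective (Function.Injective.of_lt_imp_ne fun i j ij e => n j (by simpa [e] using r i j ij)), ?_⟩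
    rintro _ ⟨i, rfl⟩ _ ⟨j, rfl⟩ ij
    rcases lt_trichotomy i j with e | rfl | e
    exacts [r i j e, absurd rfl ij, by rw [segment_symm]; exact r j i e]
  rw [← inter_union_sdiff A (affineSpan ℝ C), infinite_union] at a2
  rcases a2 with a2 | a2
  · choose! g hg using fun a (ha : a ∈ A ∩ affineSpan ℝ C) => not_forall.1 (mt mem_iInter.2 (e ▸ (a1 ha.1).2))
    obtain ⟨a, ha, b, hb, ab, g1⟩ := a2.exists_ne_map_eq_of_mapsTo (mapsTo_univ g _) finite_univ
    obtain ⟨z, z1, z2⟩ := a3 ha.1 hb.1 ab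
    exact ((k _).2.2.segment_subset ⟨⟨(a1 ha.1).1, ha.2⟩, hg a ha⟩ ⟨⟨(a1 hb.1).1, hb.2⟩, g1 ▸ hg b hb⟩ z1).2
      (mem_iInter.1 (e ▸ z2) _)
  obtain ⟨a, ha⟩ := a2.nonempty
  obtain ⟨b, hb, ab⟩ := (a2.sdiff (finite_singleton a)).nonempty
  obtain ⟨c, hc, ac⟩ := (a2.sdiff (toFinite {a, b})).nonempty
  simp only [mem_insert_iff, mem_singleton_iff, not_or] at ab ac
  obtain ⟨o, -, ho⟩ := a3 ha.1 hb.1 (Ne.symm ab)
  have o1 := subset_affineSpan ℝ C ho
  have q : ∀ a ∈ A \ affineSpan ℝ C, ∀ b ∈ A \ affineSpan ℝ C, a ≠ b → ∃ α > (0 : ℝ), ∃ β > (0 : ℝ),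
      α • (a - o) + β • (b - o) ∈ (affineSpan ℝ C).direction := fun a ha b hb ab => by
    obtain ⟨_, ⟨α, β, α0, β0, e, rfl⟩, z⟩ := a3 ha.1 hb.1 ab
    refine ⟨α, α0.lt_of_ne fun k => (a1 hb.1).2 (by simpa [← k, show β = 1 by linarith] using z), β,
      β0.lt_of_ne fun k => (a1 ha.1).2 (by simpa [← k, show α = 1 by linarith] using z), ?_⟩
    convert AffineSubspace.vsub_mem_direction (subset_affineSpan ℝ C z) o1 using 1
    rw [vsub_eq_sub, smul_sub, smul_sub, sub_add_sub_comm, Convex.combo_self e]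
  obtain ⟨α, α0, β, β0, e1⟩ := q a ha b hb (Ne.symm ab)
  obtain ⟨γ, γ0, δ, δ0, e2⟩ := q b hb c hc (Ne.symm ac.2)
  obtain ⟨ε, ε0, ζ, ζ0, e3⟩ := q a ha c hc (Ne.symm ac.1)
  refine ha.2 ((AffineSubspace.vsub_right_mem_direction_iff_mem o1 a).1
    ((Submodule.smul_mem_iff _ (show α * γ * ζ + ε * β * δ ≠ 0 by positivity)).1 ?_))
  convert add_mem (sub_mem (Submodule.smul_mem _ (γ * ζ) e1) (Submodule.smul_mem _ (β * ζ) e2))
    (Submodule.smul_mem _ (β * δ) e3) using 1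
  rw [vsub_eq_sub]
  module

end Pool.Agent.Results.MP_ec84ce_an.Yes
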